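import Pool.Agent.Q203.WE.HB

namespace Pool.Agent.Q203.WE

open MeasureTheory Filter Topology Set Metric
open Pool.Agent.Q61.WE
open scoped ENNReal NNReal

theorem x0_bd {n : ℕ} (y : E n) (hy : y ∈ ball (0 : E n) 1) :
    |(1 / 2 : ℝ) * ∑ l, x0 n l * y l ^ 2| ≤ 1 / 2 := by
  have h1 : ∀ l : Fin n, |x0 n l * y l ^ 2| ≤ y l ^ 2 := by
    intro l
    have h2 : |x0 n l| ≤ 1 := by
      unfold x0
      split_ifs <;> simp
    rw [abs_mul, abs_of_nonneg (sq_nonneg (y l))]
    have := sq_nonneg (y l)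
    nlinarith
  have h3 : |∑ l, x0 n l * y l ^ 2| ≤ ∑ l, y l ^ 2 :=
    (Finset.abs_sum_le_sum_abs _ _).trans (Finset.sum_le_sum fun l _ => h1 l)
  have h4 : ∑ l, y l ^ 2 ≤ 1 := by
    have h5 : ‖y‖ < 1 := by simpa using hy
    have h6 : ‖y‖ ^ 2 = ∑ l, y l ^ 2 := by
      rw [EuclideanSpace.norm_sq_eq]
      simp
    rw [← h6]
    nlinarith [norm_nonneg y]
  rw [abs_mul, abs_of_pos (by norm_num : (0 : ℝ) < 1 / 2)]
  linarith

theorem EXP (hSt : S_START) (hV : S_VISC) (hT : S_THETA) (_hB : S_HB) : S_EXP := by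
  intro n lam Lam ε hn hlam hLam hL hE
  obtain ⟨C, hC⟩ := hE
  set L := Lam / lam with hLdef
  set e := epn n L with he
  have hLp : 0 < L := div_pos (hlam.trans_le hLam) hlam
  have hn0 : (0 : ℝ) < n := by
    have : 0 < n := by omega
    exact_mod_cast this
  have he0 : 0 ≤ e := by rw [he, epn]; positivity
  -- the ball
  set v := volume.real (ball (0 : E n) (1 / 2)) with hv
  have hvp : 0 < v := by
    rw [hv, measureReal_def]
    exact ENNReal.toReal_pos (measure_ball_pos volume 0 (by norm_num)).ne' measure_ball_lt_top.ne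
  -- key inequality
  have key : ∀ T : ℝ, 2 ≤ T → 1 / 4 * (L * T ^ 2) ^ (-e) * v ≤ C * (T / 2) ^ (-ε) := by
    intro T hT2
    set μ := 1 / 2 * (L * T ^ 2) ^ (-e) with hμ
    have hTp : 0 < T := by linarith
    have hμp : 0 < μ := by positivity
    obtain ⟨φ, hφC, hφc, hφs, hφb, hφK, hφm⟩ := hSt n lam Lam T hn hlam hLam hL hT2 (ball 0 (1 / 2))
      isOpen_ball isBounded_ball (min (1 / 2) (μ * v / 2)) (by positivity)
    set q : E n → ℝ := fun y => (1 / 2 : ℝ) * ∑ l, x0 n l * y l ^ 2 with hq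
    obtain ⟨hqC, hqH⟩ := Hess_quad (x0 n)
    set u : E n → ℝ := fun y => q y + φ y with hu
    have huC : ContDiff ℝ 2 u := hqC.add hφC
    have huH : ∀ y, Hess u y = Matrix.diagonal (x0 n) + Hess φ y := by
      intro y
      rw [hu, Hess_add hqC hφC, hqH]
    have huS : InS lam Lam u := by
      refine hV n lam Lam hlam hLam u huC fun y => ?_
      rw [huH]
      exact ⟨(hφK y).2.1.le, (hφK y).2.2.le⟩
    have hub : ∀ y ∈ ball (0 : E n) 1, |u y| ≤ 1 := by
      intro y hy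
      have h1 := x0_bd y hy
      have h2 := (hφb y).trans (min_le_left _ _)
      have h3 := abs_add_le (q y) (φ y)
      calc |u y| ≤ |q y| + |φ y| := h3
        _ ≤ 1 / 2 + 1 / 2 := add_le_add h1 h2
        _ = 1 := by norm_num
    have h1 := hC u huS hub (T / 2) (by positivity)
    have hsub : {y ∈ ball (0 : E n) (1 / 2) | ∃ k, T ≤ |x0 n k + Hess φ y k k|}
        ⊆ {x ∈ ball (0 : E n) (1 / 2) | ENNReal.ofReal (T / 2) < Theta u x} := by
      rintro y ⟨hy, k, hk⟩
      refine ⟨hy, ?_⟩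
      have h2 := hT n u huC y (ball_subset_ball (by norm_num) hy) k
      have h3 : Hess u y k k = x0 n k + Hess φ y k k := by
        rw [huH]; simp
      rw [h3] at h2
      refine lt_of_lt_of_le ?_ h2
      rw [ENNReal.ofReal_lt_ofReal_iff (by linarith)]
      linarith
    have h4 : volume {y ∈ ball (0 : E n) (1 / 2) | ∃ k, T ≤ |x0 n k + Hess φ y k k|}
        ≤ ENNReal.ofReal (C * (T / 2) ^ (-ε)) := (measure_mono hsub).trans h1
    have h5 : volume.real {y ∈ ball (0 : E n) (1 / 2) | ∃ k, T ≤ |x0 n k + Hess φ y k k|}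
        ≤ max (C * (T / 2) ^ (-ε)) 0 := by
      rw [measureReal_def]
      refine ENNReal.toReal_le_of_le_ofReal (le_max_right _ _) ?_
      rw [ENNReal.ofReal_max]
      exact h4.trans (le_max_left _ _)
    have h6 : μ * v - min (1 / 2) (μ * v / 2) ≤ max (C * (T / 2) ^ (-ε)) 0 := hφm.trans h5
    have h7 : μ * v / 2 ≤ max (C * (T / 2) ^ (-ε)) 0 := by
      have := min_le_right (1 / 2 : ℝ) (μ * v / 2)
      linarith
    have h8 : 0 < μ * v / 2 := by positivity
    rcases le_max_iff.1 h7 with h9 | h9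
    · calc 1 / 4 * (L * T ^ 2) ^ (-e) * v = μ * v / 2 := by rw [hμ]; ring
        _ ≤ _ := h9
    · linarith
  -- conclusion
  by_contra hcon
  push Not at hcon
  set d := ε - 2 * e with hd
  have hdp : 0 < d := by rw [hd]; linarith
  -- T ^ d is bounded
  set K := 4 * C * 2 ^ ε * L ^ e / v with hK
  have hbd : ∀ T : ℝ, 2 ≤ T → T ^ d ≤ K := by
    intro T hT2
    have hTp : 0 < T := by linarith
    have h1 := key T hT2
    have e1 : (L * T ^ 2) ^ (-e) = L ^ (-e) * T ^ (-(2 * e)) := by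
      rw [Real.mul_rpow hLp.le (by positivity), ← Real.rpow_natCast, ← Real.rpow_mul hTp.le]
      congr 2
      push_cast
      ring
    have e2 : (T / 2) ^ (-ε) = T ^ (-ε) * 2 ^ ε := by
      rw [Real.div_rpow hTp.le (by norm_num), Real.rpow_neg (by norm_num : (0 : ℝ) ≤ 2)]
      field_simp
    rw [e1, e2] at h1
    have e3 : T ^ d = T ^ ε * T ^ (-(2 * e)) := by
      rw [← Real.rpow_add hTp]
      congr 1
    have e4 : T ^ ε * T ^ (-ε) = 1 := by
      rw [← Real.rpow_add hTp]; simp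
    have e5 : L ^ e * L ^ (-e) = 1 := by
      rw [← Real.rpow_add hLp]; simp
    have hTe : 0 < T ^ ε := Real.rpow_pos_of_pos hTp _
    have hLe : 0 < L ^ e := Real.rpow_pos_of_pos hLp _
    have h2 := mul_le_mul_of_nonneg_left h1 (show 0 ≤ 4 * T ^ ε * L ^ e by positivity)
    have e6 : 4 * T ^ ε * L ^ e * (1 / 4 * (L ^ (-e) * T ^ (-(2 * e))) * v)
        = (L ^ e * L ^ (-e)) * (T ^ ε * T ^ (-(2 * e))) * v := by ring
    have e7 : 4 * T ^ ε * L ^ e * (C * (T ^ (-ε) * 2 ^ ε)) = (T ^ ε * T ^ (-ε)) * (4 * C * 2 ^ ε * L ^ e) := by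
      ring
    rw [e6, e7, e4, e5, one_mul, one_mul, ← e3] at h2
    rw [hK, le_div_iff₀ hvp]
    exact h2
  have ht := tendsto_rpow_atTop hdp
  have h1 := (ht.eventually (eventually_gt_atTop K)).and (eventually_ge_atTop (2 : ℝ))
  obtain ⟨T, hT1, hT2⟩ := h1.exists
  exact absurd (hbd T hT2) (not_le.2 hT1)

end Pool.Agent.Q203.WE
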