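import Pool.Agent.Q61.WE.Stm

namespace Pool.Agent.Q203.WE

open MeasureTheory Filter Topology Set Metric
open Pool.Agent.Q61.WE

theorem Hess_symm {n : ℕ} {φ : E n → ℝ} {y : E n} (h : ContDiffAt ℝ 2 φ y) :
    (Hess φ y).IsHermitian := by
  have h1 : IsSymmSndFDerivAt ℝ φ y := h.isSymmSndFDerivAt (by simp)
  ext i j
  simp only [Matrix.conjTranspose_apply, Hess, star_trivial]
  exact h1 _ _

theorem Hess_zero {n : ℕ} {φ : E n → ℝ} {y : E n} (h : y ∉ tsupport φ) :
    Hess φ y = 0 := by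
  have h1 : φ =ᶠ[𝓝 y] fun _ => 0 := by
    rw [notMem_tsupport_iff_eventuallyEq] at h
    exact h
  have h2 : fderiv ℝ φ =ᶠ[𝓝 y] fun _ => 0 := by
    have := h1.fderiv (𝕜 := ℝ)
    refine this.trans ?_
    filter_upwards with z
    simp
  have h3 : fderiv ℝ (fderiv ℝ φ) y = 0 := by
    rw [h2.fderiv_eq]
    simp
  ext i j
  simp [Hess, h3]

theorem Hess_cont {n : ℕ} {φ : E n → ℝ} (h : ContDiff ℝ 2 φ) (i j : Fin n) :
    Continuous fun y => Hess φ y i j := by
  have h1 : ContDiff ℝ 1 (fderiv ℝ φ) := h.fderiv_right (by norm_num)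
  have h2 : Continuous (fderiv ℝ (fderiv ℝ φ)) := h1.continuous_fderiv (by norm_num)
  unfold Hess
  exact (h2.clm_apply continuous_const).clm_apply continuous_const

theorem Hess_add {n : ℕ} {φ ψ : E n → ℝ} (hφ : ContDiff ℝ 2 φ) (hψ : ContDiff ℝ 2 ψ) (y : E n) :
    Hess (fun z => φ z + ψ z) y = Hess φ y + Hess ψ y := by
  have h1 : fderiv ℝ (fun z => φ z + ψ z) = fun z => fderiv ℝ φ z + fderiv ℝ ψ z := by
    ext1 z
    exact fderiv_fun_add (hφ.differentiable (by norm_num) z) (hψ.differentiable (by norm_num) z)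
  have h2 : ContDiff ℝ 1 (fderiv ℝ φ) := hφ.fderiv_right (by norm_num)
  have h3 : ContDiff ℝ 1 (fderiv ℝ ψ) := hψ.fderiv_right (by norm_num)
  have h4 : fderiv ℝ (fderiv ℝ (fun z => φ z + ψ z)) y
      = fderiv ℝ (fderiv ℝ φ) y + fderiv ℝ (fderiv ℝ ψ) y := by
    rw [h1]
    exact fderiv_fun_add (h2.differentiable (by norm_num) y) (h3.differentiable (by norm_num) y)
  ext i j
  simp [Hess, h4]

theorem Hess_neg {n : ℕ} (φ : E n → ℝ) (y : E n) :
    Hess (fun z => -φ z) y = -Hess φ y := by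
  have h1 : fderiv ℝ (fun z => -φ z) = fun z => -fderiv ℝ φ z := by
    ext1 z
    exact fderiv_fun_neg
  have h2 : fderiv ℝ (fun z => -fderiv ℝ φ z) y = - fderiv ℝ (fderiv ℝ φ) y := fderiv_fun_neg
  ext i j
  simp [Hess, h1, h2]

/-- Coordinate functional. -/
noncomputable def pr {n : ℕ} (i : Fin n) : E n →L[ℝ] ℝ := EuclideanSpace.proj i

theorem pr_apply {n : ℕ} (i : Fin n) (y : E n) : pr i y = y i := rfl

section gen

variable {V : Type*} [NormedAddCommGroup V] [NormedSpace ℝ V]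

theorem gen_quad1 {n : ℕ} (p : Fin n → V →L[ℝ] ℝ) (x : Fin n → ℝ) (z : V) :
    HasFDerivAt (fun y : V => (1 / 2 : ℝ) * ∑ l, x l * (p l y) ^ 2)
      (∑ l, (x l * p l z) • p l) z := by
  have h1 : ∀ l : Fin n, HasFDerivAt (fun y : V => x l * (p l y) ^ 2)
      ((2 * (x l * p l z)) • p l) z := by
    intro l
    have h2 : HasFDerivAt (fun y : V => p l y) (p l) z := (p l).hasFDerivAt
    have h3 := (h2.pow 2).const_mul (x l)
    refine h3.congr_fderiv ?_
    ext w
    simp
    ring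
  have h4 := (HasFDerivAt.fun_sum (u := Finset.univ) (fun l _ => h1 l)).const_mul (1 / 2 : ℝ)
  refine h4.congr_fderiv ?_
  rw [Finset.smul_sum]
  refine Finset.sum_congr rfl fun l _ => ?_
  rw [smul_smul]
  congr 1
  ring

theorem gen_quad2 {n : ℕ} (p : Fin n → V →L[ℝ] ℝ) (x : Fin n → ℝ) (y : V) :
    HasFDerivAt (fderiv ℝ (fun y : V => (1 / 2 : ℝ) * ∑ l, x l * (p l y) ^ 2))
      (∑ l, (x l • p l).smulRight (p l)) y := by
  have h1 : fderiv ℝ (fun y : V => (1 / 2 : ℝ) * ∑ l, x l * (p l y) ^ 2)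
      = fun z => ∑ l, (x l * p l z) • p l := by
    ext1 z
    exact (gen_quad1 p x z).fderiv
  rw [h1]
  refine HasFDerivAt.fun_sum fun l _ => ?_
  have h3 : HasFDerivAt (fun z : V => x l * p l z) (x l • p l) y :=
    ((p l).hasFDerivAt (x := y)).const_mul (x l)
  exact h3.smul_const (p l)

end gen

theorem Hess_quad {n : ℕ} (x : Fin n → ℝ) :
    ContDiff ℝ 2 (fun y : E n => (1 / 2 : ℝ) * ∑ l, x l * y l ^ 2) ∧
    ∀ y, Hess (fun y : E n => (1 / 2 : ℝ) * ∑ l, x l * y l ^ 2) y = Matrix.diagonal x := by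
  constructor
  · refine ContDiff.mul contDiff_const (ContDiff.sum fun l _ => ?_)
    refine ContDiff.mul contDiff_const (ContDiff.pow ?_ 2)
    exact (pr l).contDiff
  · intro y
    have h2 := gen_quad2 (V := E n) pr x y
    ext i j
    have h3 : Hess (fun y : E n => (1 / 2 : ℝ) * ∑ l, x l * y l ^ 2) y i j
        = (∑ l, (x l • pr l).smulRight (pr l) : E n →L[ℝ] E n →L[ℝ] ℝ)
          (EuclideanSpace.single i 1) (EuclideanSpace.single j 1) := by
      rw [← h2.fderiv]
      rfl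
    rw [h3, Matrix.diagonal_apply]
    simp only [sum_apply, ContinuousLinearMap.smulRight_apply,
      smul_apply, pr_apply, PiLp.single_apply, smul_eq_mul]
    by_cases hij : i = j
    · subst hij
      rw [Finset.sum_eq_single i]
      · simp
      · intro b _ hb
        simp [hb]
      · simp
    · rw [if_neg hij]
      refine Finset.sum_eq_zero fun l _ => ?_
      by_cases h1 : l = i
      · subst h1
        simp [hij]
      · simp [h1]

theorem HB : S_HB := by
  intro n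
  refine ⟨fun φ ψ hφ hψ y => Hess_add hφ hψ y, fun φ y => Hess_neg φ y,
    fun φ y h => Hess_symm h, fun φ y h => Hess_zero h, fun φ h i j => Hess_cont h i j, ?_⟩
  intro x
  exact Hess_quad x

end Pool.Agent.Q203.WE
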