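import Pool.Agent.Q61.WE.Stm

namespace Pool.Agent.Q203.WE

open MeasureTheory Filter Topology Set Metric
open Pool.Agent.Q61.WE

/-- truncation -/
noncomputable def cl (s₁ s₂ v : ℝ) : ℝ := max (-s₁) (min s₂ v)

theorem cl_cont (s₁ s₂ : ℝ) : Continuous (cl s₁ s₂) := by
  unfold cl
  fun_prop

theorem cl_int (s₁ s₂ K r : ℝ) (h1 : 0 < s₁) (h2 : 0 < s₂) (hK : 0 < K)
    (hr1 : s₁ / K ≤ r) (hr2 : r + s₂ / K ≤ 1 / 2) :
    ∫ u in (0 : ℝ)..(1 / 2), cl s₁ s₂ (K * (u - r))
      = -s₁ * (r - s₁ / K) + (s₂ ^ 2 - s₁ ^ 2) / (2 * K) + s₂ * (1 / 2 - (r + s₂ / K)) := by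
  have hc : Continuous fun u => cl s₁ s₂ (K * (u - r)) := (cl_cont s₁ s₂).comp (by fun_prop)
  have hi : ∀ a b : ℝ, IntervalIntegrable (fun u => cl s₁ s₂ (K * (u - r))) volume a b :=
    fun a b => hc.intervalIntegrable a b
  have e1 : s₁ / K = s₁ * K⁻¹ := div_eq_mul_inv _ _
  have hs1 : 0 < s₁ / K := div_pos h1 hK
  have hs2 : 0 < s₂ / K := div_pos h2 hK
  have hk1 : K * (s₁ / K) = s₁ := by field_simp
  have hk2 : K * (s₂ / K) = s₂ := by field_simp
  have A : ∫ u in (0 : ℝ)..(r - s₁ / K), cl s₁ s₂ (K * (u - r)) = -s₁ * (r - s₁ / K) := by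
    have : ∫ u in (0 : ℝ)..(r - s₁ / K), cl s₁ s₂ (K * (u - r))
        = ∫ u in (0 : ℝ)..(r - s₁ / K), (-s₁) := by
      refine intervalIntegral.integral_congr fun u hu => ?_
      rw [uIcc_of_le (by linarith)] at hu
      unfold cl
      have : K * (u - r) ≤ -s₁ := by
        have := mul_le_mul_of_nonneg_left (show u - r ≤ -(s₁ / K) by linarith [hu.2]) hK.le
        linarith [this]
      rw [min_eq_right (by linarith), max_eq_left this]
    rw [this, intervalIntegral.integral_const, smul_eq_mul]
    ring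
  have C : ∫ u in (r + s₂ / K)..(1 / 2), cl s₁ s₂ (K * (u - r)) = s₂ * (1 / 2 - (r + s₂ / K)) := by
    have : ∫ u in (r + s₂ / K)..(1 / 2), cl s₁ s₂ (K * (u - r))
        = ∫ u in (r + s₂ / K)..(1 / 2), s₂ := by
      refine intervalIntegral.integral_congr fun u hu => ?_
      rw [uIcc_of_le (by linarith)] at hu
      unfold cl
      have : s₂ ≤ K * (u - r) := by
        have := mul_le_mul_of_nonneg_left (show s₂ / K ≤ u - r by linarith [hu.1]) hK.le
        linarith [this]
      rw [min_eq_left this, max_eq_right (by linarith)]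
    rw [this, intervalIntegral.integral_const, smul_eq_mul]
    ring
  have B : ∫ u in (r - s₁ / K)..(r + s₂ / K), cl s₁ s₂ (K * (u - r))
      = (s₂ ^ 2 - s₁ ^ 2) / (2 * K) := by
    have : ∫ u in (r - s₁ / K)..(r + s₂ / K), cl s₁ s₂ (K * (u - r))
        = ∫ u in (r - s₁ / K)..(r + s₂ / K), K * (u - r) := by
      refine intervalIntegral.integral_congr fun u hu => ?_
      rw [uIcc_of_le (by linarith)] at hu
      unfold cl
      have a1 : -s₁ ≤ K * (u - r) := by
        have := mul_le_mul_of_nonneg_left (show -(s₁ / K) ≤ u - r by linarith [hu.1]) hK.le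
        linarith [this]
      have a2 : K * (u - r) ≤ s₂ := by
        have := mul_le_mul_of_nonneg_left (show u - r ≤ s₂ / K by linarith [hu.2]) hK.le
        linarith [this]
      rw [min_eq_right a2, max_eq_right a1]
    rw [this, intervalIntegral.integral_const_mul,
      intervalIntegral.integral_comp_sub_right (fun u => u), integral_id]
    have : r + s₂ / K - r = s₂ / K := by ring
    rw [this]
    have : r - s₁ / K - r = - (s₁ / K) := by ring
    rw [this]
    field_simp
  rw [← intervalIntegral.integral_add_adjacent_intervals (hi 0 (r - s₁ / K)) (hi _ (1 / 2)),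
    ← intervalIntegral.integral_add_adjacent_intervals (hi (r - s₁ / K) (r + s₂ / K)) (hi _ _),
    A, B, C]
  ring

/-- distance of the fractional part to one half -/
noncomputable def fr (t : ℝ) : ℝ := |Int.fract t - 1 / 2|

theorem fr_cont : Continuous fr := by
  have h : Continuous ((fun s : ℝ => |s - 1 / 2|) ∘ Int.fract) := by
    refine ContinuousOn.comp_fract'' ?_ ?_
    · exact Continuous.continuousOn (by fun_prop)
    · norm_num
  exact h

theorem fr_per : Function.Periodic fr 1 := by
  intro t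
  simp [fr]

theorem fr_Ico (t : ℝ) (ht : t ∈ Ico (0 : ℝ) 1) : fr t = |t - 1 / 2| := by
  rw [fr, Int.fract_eq_self.2 ⟨ht.1, ht.2⟩]

theorem fr_Icc (t : ℝ) (ht : t ∈ Icc (0 : ℝ) 1) : fr t = |t - 1 / 2| := by
  rcases eq_or_lt_of_le ht.2 with h | h
  · subst h
    simp [fr]
    norm_num
  · exact fr_Ico t ⟨ht.1, h⟩

/-- integral over one period -/
theorem fr_int (φ : ℝ → ℝ) (hφ : Continuous φ) :
    ∫ t in (0 : ℝ)..1, φ (fr t) = 2 * ∫ u in (0 : ℝ)..(1 / 2), φ u := by
  have hc : Continuous fun t => φ (fr t) := hφ.comp fr_cont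
  have e1 : ∫ t in (0 : ℝ)..1, φ (fr t) = ∫ t in (0 : ℝ)..1, φ |t - 1 / 2| := by
    refine intervalIntegral.integral_congr fun u hu => ?_
    rw [uIcc_of_le (by norm_num)] at hu
    rw [fr_Icc u hu]
  have hi : ∀ a b : ℝ, IntervalIntegrable (fun u => φ |u - 1 / 2|) volume a b :=
    fun a b => (hφ.comp (by fun_prop : Continuous fun u : ℝ => |u - 1 / 2|)).intervalIntegrable a b
  rw [e1, ← intervalIntegral.integral_add_adjacent_intervals (hi 0 (1 / 2)) (hi (1 / 2) 1)]
  have e2 : ∫ t in (0 : ℝ)..(1 / 2), φ |t - 1 / 2| = ∫ u in (0 : ℝ)..(1 / 2), φ u := by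
    have : ∫ t in (0 : ℝ)..(1 / 2), φ |t - 1 / 2| = ∫ t in (0 : ℝ)..(1 / 2), φ (1 / 2 - t) := by
      refine intervalIntegral.integral_congr fun u hu => ?_
      rw [uIcc_of_le (by norm_num)] at hu
      rw [abs_of_nonpos (by linarith [hu.2])]
      congr 1
      ring
    rw [this, intervalIntegral.integral_comp_sub_left (fun u => φ u)]
    norm_num
  have e3 : ∫ t in (1 / 2 : ℝ)..1, φ |t - 1 / 2| = ∫ u in (0 : ℝ)..(1 / 2), φ u := by
    have : ∫ t in (1 / 2 : ℝ)..1, φ |t - 1 / 2| = ∫ t in (1 / 2 : ℝ)..1, φ (t - 1 / 2) := by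
      refine intervalIntegral.integral_congr fun u hu => ?_
      rw [uIcc_of_le (by norm_num)] at hu
      rw [abs_of_nonneg (by linarith [hu.1])]
    rw [this, intervalIntegral.integral_comp_sub_right (fun u => φ u)]
    norm_num
  rw [e2, e3]
  ring

/-- measure of a periodic open set in a unit interval -/
theorem per_meas (J : Set ℝ) (hJ : MeasurableSet J) (hp : ∀ t, t + 1 ∈ J ↔ t ∈ J) (c : ℝ) :
    volume.real (J ∩ Icc c (c + 1)) = volume.real (J ∩ Ico 0 1) := by
  classical
  have hper : Function.Periodic (J.indicator (fun _ => (1 : ℝ))) 1 := by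
    intro t
    by_cases h : t ∈ J
    · rw [indicator_of_mem h, indicator_of_mem ((hp t).2 h)]
    · rw [indicator_of_notMem h, indicator_of_notMem (fun h' => h ((hp t).1 h'))]
  have h1 := hper.intervalIntegral_add_eq c 0
  have h2 : ∀ a : ℝ, ∫ x in a..a + 1, J.indicator (fun _ => (1 : ℝ)) x
      = volume.real (J ∩ Ioc a (a + 1)) := by
    intro a
    rw [intervalIntegral.integral_of_le (by linarith), integral_indicator hJ,
      Measure.restrict_restrict hJ, setIntegral_const]
    simp
  rw [h2, h2] at h1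
  have h3 : volume.real (J ∩ Icc c (c + 1)) = volume.real (J ∩ Ioc c (c + 1)) := by
    refine measureReal_congr ?_
    exact (ae_eq_refl J).inter Ioc_ae_eq_Icc.symm
  have h4 : volume.real (J ∩ Ioc 0 (0 + 1)) = volume.real (J ∩ Ico 0 1) := by
    refine measureReal_congr ?_
    rw [zero_add]
    exact (ae_eq_refl J).inter Ico_ae_eq_Ioc.symm
  rw [h3, h1, h4]

/-- primitive of a periodic continuous function with mean zero is periodic -/
theorem per_prim (g : ℝ → ℝ) (hg : Continuous g) (hp : Function.Periodic g 1)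
    (h0 : ∫ t in (0 : ℝ)..1, g t = 0) :
    Function.Periodic (fun t => ∫ s in (0 : ℝ)..t, g s) 1 := by
  intro t
  simp only
  rw [← intervalIntegral.integral_add_adjacent_intervals (hg.intervalIntegrable 0 t)
    (hg.intervalIntegrable t (t + 1))]
  have := hp.intervalIntegral_add_eq t 0
  rw [this, zero_add, h0, add_zero]

theorem per_bd (g : ℝ → ℝ) (hg : Continuous g) (hp : Function.Periodic g 1) :
    ∃ B : ℝ, ∀ t, |g t| ≤ B := by
  have := hp.isBounded_of_continuous one_ne_zero hg
  obtain ⟨B, hB⟩ := this.exists_norm_le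
  exact ⟨B, fun t => hB _ (mem_range_self t)⟩

theorem OSC : S_OSC := by
  intro s₁ s₂ η h1 h2 hη
  set S := s₁ + s₂ with hS
  have hS0 : 0 < S := by positivity
  set K := S / η + S ^ 2 / s₁ + S ^ 2 / s₂ with hKdef
  have k1 : 0 < S / η := by positivity
  have k2 : 0 < S ^ 2 / s₁ := by positivity
  have k3 : 0 < S ^ 2 / s₂ := by positivity
  have hK : 0 < K := by positivity
  have kη : S / K ≤ η := by
    rw [div_le_iff₀ hK]
    have : S = η * (S / η) := by field_simp
    calc S = η * (S / η) := this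
      _ ≤ η * K := by
        apply mul_le_mul_of_nonneg_left _ hη.le
        rw [hKdef]; linarith
  have ks1 : S / K ≤ s₁ / S := by
    rw [div_le_div_iff₀ hK hS0]
    have : S * S = s₁ * (S ^ 2 / s₁) := by field_simp
    rw [this]
    apply mul_le_mul_of_nonneg_left _ h1.le
    rw [hKdef]; linarith
  have ks2 : S / K ≤ s₂ / S := by
    rw [div_le_div_iff₀ hK hS0]
    have : S * S = s₂ * (S ^ 2 / s₂) := by field_simp
    rw [this]
    apply mul_le_mul_of_nonneg_left _ h2.le
    rw [hKdef]; linarith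
  set r := s₂ / (2 * S) + (s₁ - s₂) / (2 * K) with hr
  have hsum : s₁ / S + s₂ / S = 1 := by
    rw [← add_div, ← hS, div_self hS0.ne']
  have er1 : 2 * (r - s₁ / K) = s₂ / S - S / K := by
    rw [hr, hS]; field_simp; ring
  have er2 : 1 - 2 * (r + s₂ / K) = s₁ / S - S / K := by
    have : s₁ / S = 1 - s₂ / S := by linarith
    rw [this, hr, hS]; field_simp; ring
  have hr1 : s₁ / K ≤ r := by linarith
  have hr2 : r + s₂ / K ≤ 1 / 2 := by linarith
  set g : ℝ → ℝ := fun t => cl s₁ s₂ (K * (fr t - r)) with hg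
  have hgc : Continuous g := (cl_cont s₁ s₂).comp (continuous_const.mul (fr_cont.sub continuous_const))
  have hgp : Function.Periodic g 1 := by
    intro t
    simp only [hg]
    rw [fr_per t]
  have hg0 : ∫ t in (0 : ℝ)..1, g t = 0 := by
    have := fr_int (fun u => cl s₁ s₂ (K * (u - r)))
      ((cl_cont s₁ s₂).comp (by fun_prop))
    rw [hg, this, cl_int s₁ s₂ K r h1 h2 hK hr1 hr2]
    have e1 : r - s₁ / K = (s₂ / S - S / K) / 2 := by linarith
    have e2 : 1 / 2 - (r + s₂ / K) = (s₁ / S - S / K) / 2 := by linarith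
    rw [e1, e2, hS]
    field_simp
    ring
  -- first primitive
  set G1 : ℝ → ℝ := fun t => ∫ s in (0 : ℝ)..t, g s with hG1
  have hG1d : ∀ t, HasDerivAt G1 (g t) t := fun t =>
    intervalIntegral.integral_hasDerivAt_right (hgc.intervalIntegrable 0 t)
      hgc.stronglyMeasurable.stronglyMeasurableAtFilter hgc.continuousAt
  have hG1c : Continuous G1 := continuous_iff_continuousAt.2 fun t => (hG1d t).continuousAt
  have hG1p : Function.Periodic G1 1 := per_prim g hgc hgp hg0
  set m := ∫ t in (0 : ℝ)..1, G1 t with hm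
  set G2 : ℝ → ℝ := fun t => G1 t - m with hG2
  have hG2c : Continuous G2 := hG1c.sub continuous_const
  have hG2p : Function.Periodic G2 1 := by
    intro t
    simp only [hG2]
    rw [hG1p t]
  have hG20 : ∫ t in (0 : ℝ)..1, G2 t = 0 := by
    simp only [hG2]
    rw [intervalIntegral.integral_sub (hG1c.intervalIntegrable 0 1)
      (continuous_const.intervalIntegrable 0 1), ← hm, intervalIntegral.integral_const]
    simp
  set H : ℝ → ℝ := fun t => ∫ s in (0 : ℝ)..t, G2 s with hH
  have hHd : ∀ t, HasDerivAt H (G2 t) t := fun t =>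
    intervalIntegral.integral_hasDerivAt_right (hG2c.intervalIntegrable 0 t)
      hG2c.stronglyMeasurable.stronglyMeasurableAtFilter hG2c.continuousAt
  have hHc : Continuous H := continuous_iff_continuousAt.2 fun t => (hHd t).continuousAt
  have hHp : Function.Periodic H 1 := per_prim G2 hG2c hG2p hG20
  have hdH : deriv H = G2 := by
    ext t; exact (hHd t).deriv
  have hG2d : ∀ t, HasDerivAt G2 (g t) t := fun t => (hG1d t).sub_const m
  have hdG : deriv G2 = g := by
    ext t; exact (hG2d t).deriv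
  have hHC : ContDiff ℝ 2 H := by
    have : (2 : WithTop ℕ∞) = 1 + 1 := by norm_num
    rw [this, contDiff_succ_iff_deriv]
    refine ⟨fun t => (hHd t).differentiableAt, by simp, ?_⟩
    rw [hdH, contDiff_one_iff_deriv]
    refine ⟨fun t => (hG2d t).differentiableAt, ?_⟩
    rw [hdG]
    exact hgc
  obtain ⟨B1, hB1⟩ := per_bd H hHc hHp
  obtain ⟨B2, hB2⟩ := per_bd G2 hG2c hG2p
  have hdd : ∀ t, deriv (deriv H) t = g t := by
    intro t
    rw [hdH, hdG]
  refine ⟨H, {t | fr t < r - s₁ / K}, {t | r + s₂ / K < fr t}, hHC, ⟨max B1 B2, fun t =>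
    ⟨(hB1 t).trans (le_max_left _ _), ?_⟩⟩, ?_, ?_, ?_, ?_, ?_, ?_, ?_, ?_⟩
  · rw [hdH]
    exact (hB2 t).trans (le_max_right _ _)
  · intro t
    rw [hdd]
    constructor
    · exact le_max_left _ _
    · exact max_le (by linarith) (min_le_left _ _)
  · exact isOpen_lt fr_cont continuous_const
  · exact isOpen_lt continuous_const fr_cont
  · rw [Set.disjoint_left]
    intro t ht1 ht2
    simp only [mem_ofPred_eq] at ht1 ht2
    have : 0 < s₁ / K := by positivity
    have : 0 < s₂ / K := by positivity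
    linarith
  · intro t ht
    simp only [mem_ofPred_eq] at ht
    rw [hdd, hg]
    unfold cl
    have hk1 : K * (s₁ / K) = s₁ := by field_simp
    have : K * (fr t - r) ≤ -s₁ := by
      have := mul_le_mul_of_nonneg_left (show fr t - r ≤ -(s₁ / K) by linarith) hK.le
      linarith [this]
    simp only
    rw [min_eq_right (by linarith), max_eq_left this]
  · intro t ht
    simp only [mem_ofPred_eq] at ht
    rw [hdd, hg]
    unfold cl
    have hk2 : K * (s₂ / K) = s₂ := by field_simp
    have : s₂ ≤ K * (fr t - r) := by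
      have := mul_le_mul_of_nonneg_left (show s₂ / K ≤ fr t - r by linarith) hK.le
      linarith [this]
    simp only
    rw [min_eq_left this, max_eq_right (by linarith)]
  · intro c
    rw [per_meas _ (isOpen_lt fr_cont continuous_const).measurableSet ?_ c]
    · have hsub : Ioo (1 / 2 - (r - s₁ / K)) (1 / 2 + (r - s₁ / K))
          ⊆ {t | fr t < r - s₁ / K} ∩ Ico 0 1 := by
        intro t ht
        have hs2 : 0 < s₂ / K := by positivity
        have hs1 : 0 < s₁ / K := by positivity
        have ht' : t ∈ Ico (0 : ℝ) 1 := ⟨by linarith [ht.1], by linarith [ht.2]⟩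
        refine ⟨?_, ht'⟩
        simp only [mem_ofPred_eq]
        rw [fr_Ico t ht', abs_lt]
        constructor
        · linarith [ht.1]
        · linarith [ht.2]
      have hle : volume.real (Ioo (1 / 2 - (r - s₁ / K)) (1 / 2 + (r - s₁ / K))) ≤
          volume.real ({t | fr t < r - s₁ / K} ∩ Ico 0 1) := by
        refine measureReal_mono hsub ?_
        exact ne_top_of_le_ne_top (by simp) (measure_mono inter_subset_right)
      rw [Real.volume_real_Ioo_of_le (by linarith)] at hle
      have : (s₂ / (s₁ + s₂)) = s₂ / S := by rw [hS]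
      rw [this]
      linarith
    · intro t
      simp only [mem_ofPred_eq]
      rw [fr_per t]
  · intro c
    rw [per_meas _ (isOpen_lt continuous_const fr_cont).measurableSet ?_ c]
    · have hsub : Ico (0 : ℝ) 1 \ Icc (1 / 2 - (r + s₂ / K)) (1 / 2 + (r + s₂ / K))
          ⊆ {t | r + s₂ / K < fr t} ∩ Ico 0 1 := by
        intro t ht
        refine ⟨?_, ht.1⟩
        simp only [mem_ofPred_eq]
        rw [fr_Ico t ht.1, lt_abs]
        by_contra hcon
        push Not at hcon
        exact ht.2 ⟨by linarith [hcon.2], by linarith [hcon.1]⟩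
      have hle : volume.real (Ico (0 : ℝ) 1 \ Icc (1 / 2 - (r + s₂ / K)) (1 / 2 + (r + s₂ / K))) ≤
          volume.real ({t | r + s₂ / K < fr t} ∩ Ico 0 1) := by
        refine measureReal_mono hsub ?_
        exact ne_top_of_le_ne_top (by simp) (measure_mono inter_subset_right)
      have hle2 : volume.real (Ico (0 : ℝ) 1) - volume.real (Icc (1 / 2 - (r + s₂ / K)) (1 / 2 + (r + s₂ / K)))
          ≤ volume.real (Ico (0 : ℝ) 1 \ Icc (1 / 2 - (r + s₂ / K)) (1 / 2 + (r + s₂ / K))) :=
        le_measureReal_sdiff (by simp)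
      have hs2 : 0 < s₂ / K := by positivity
      have hs1 : 0 < s₁ / K := by positivity
      rw [Real.volume_real_Ico_of_le (by norm_num), Real.volume_real_Icc_of_le (by linarith)] at hle2
      have : (s₁ / (s₁ + s₂)) = s₁ / S := by rw [hS]
      rw [this]
      linarith
    · intro t
      simp only [mem_ofPred_eq]
      rw [fr_per t]

end Pool.Agent.Q203.WE
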