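import Pool.Agent.Q203.WE.HB

namespace Pool.Agent.Q203.WE

open MeasureTheory Filter Topology Set Metric
open Pool.Agent.Q61.WE

theorem cd1 (h : ℝ → ℝ) (hh : ContDiff ℝ 2 h) : ContDiff ℝ 1 (deriv h) := by
  have h2 : ContDiff ℝ (1 + 1) h := by
    have : (1 + 1 : WithTop ℕ∞) = 2 := by norm_num
    rw [this]
    exact hh
  exact (contDiff_succ_iff_deriv.1 h2).2.2

section gen

variable {V : Type*} [NormedAddCommGroup V] [NormedSpace ℝ V]

theorem gen_prod (p : V →L[ℝ] ℝ) (χ : V → ℝ) (h : ℝ → ℝ) (hχ : ContDiff ℝ 2 χ)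
    (hh : ContDiff ℝ 2 h) (y v w : V) :
    fderiv ℝ (fderiv ℝ (fun z => χ z * h (p z))) y v w
      = h (p y) * fderiv ℝ (fderiv ℝ χ) y v w + (deriv h (p y) * p v) * fderiv ℝ χ y w
        + (fderiv ℝ χ y v * deriv h (p y) + χ y * (deriv (deriv h) (p y) * p v)) * p w := by
  have h1 : fderiv ℝ (fun z => χ z * h (p z))
      = fun z => h (p z) • fderiv ℝ χ z + (χ z * deriv h (p z)) • p := by
    ext1 z
    have e1 : HasFDerivAt χ (fderiv ℝ χ z) z := (hχ.differentiable (by norm_num) z).hasFDerivAt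
    have e2 : HasDerivAt h (deriv h (p z)) (p z) :=
      (hh.differentiable (by norm_num) (p z)).hasDerivAt
    have e3 : HasFDerivAt (fun z => h (p z)) (deriv h (p z) • p) z :=
      e2.comp_hasFDerivAt z p.hasFDerivAt
    have e4 := (e1.mul e3).fderiv
    have e5 : (fun z => χ z * h (p z)) = χ * fun z => h (p z) := rfl
    rw [e5, e4]
    ext w
    simp
    ring
  have h2 : ContDiff ℝ 1 (fderiv ℝ χ) := hχ.fderiv_right (by norm_num)
  have h3 : ContDiff ℝ 1 (deriv h) := by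
    exact cd1 h hh
  have e1 : HasFDerivAt χ (fderiv ℝ χ y) y := (hχ.differentiable (by norm_num) y).hasFDerivAt
  have e2 : HasDerivAt h (deriv h (p y)) (p y) :=
    (hh.differentiable (by norm_num) (p y)).hasDerivAt
  have e3 : HasFDerivAt (fun z => h (p z)) (deriv h (p y) • p) y :=
    e2.comp_hasFDerivAt y p.hasFDerivAt
  have e4 : HasDerivAt (deriv h) (deriv (deriv h) (p y)) (p y) :=
    (h3.differentiable (by norm_num) (p y)).hasDerivAt
  have e5 : HasFDerivAt (fun z => deriv h (p z)) (deriv (deriv h) (p y) • p) y :=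
    e4.comp_hasFDerivAt y p.hasFDerivAt
  have e6 : HasFDerivAt (fderiv ℝ χ) (fderiv ℝ (fderiv ℝ χ) y) y :=
    (h2.differentiable (by norm_num) y).hasFDerivAt
  have e7 := (e3.smul e6).add ((e1.mul e5).smul_const p)
  have e8 : fderiv ℝ (fderiv ℝ (fun z => χ z * h (p z))) y
      = (h (p y) • fderiv ℝ (fderiv ℝ χ) y + (deriv h (p y) • p).smulRight (fderiv ℝ χ y) +
      (χ y • deriv (deriv h) (p y) • p + deriv h (p y) • fderiv ℝ χ y).smulRight p) := by
    rw [h1]
    exact e7.fderiv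
  rw [e8]
  simp only [add_apply, smul_apply, ContinuousLinearMap.smulRight_apply, smul_eq_mul]
  ring

theorem gen_bd2 (χ : V → ℝ) (hχ : ContDiff ℝ 2 χ) (hcs : HasCompactSupport χ) :
    ∃ M1 : ℝ, 0 ≤ M1 ∧ (∀ y, ‖fderiv ℝ χ y‖ ≤ M1) := by
  have h1 : HasCompactSupport (fderiv ℝ χ) := hcs.fderiv ℝ
  have h2 : Continuous (fderiv ℝ χ) := hχ.continuous_fderiv (by norm_num)
  obtain ⟨M1, hM1⟩ := h1.exists_bound_of_continuous h2
  exact ⟨M1, (norm_nonneg _).trans (hM1 0), hM1⟩

end gen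

theorem gen_bdr {V : Type*} [NormedAddCommGroup V] (χ : V → ℝ) (hχ : Continuous χ)
    (hcs : HasCompactSupport χ) :
    ∃ M1 : ℝ, 0 ≤ M1 ∧ (∀ y, |χ y| ≤ M1) := by
  obtain ⟨M1, hM1⟩ := hcs.exists_bound_of_continuous hχ
  refine ⟨M1, (norm_nonneg _).trans (hM1 0), fun y => ?_⟩
  rw [← Real.norm_eq_abs]
  exact hM1 y

theorem Hess_bd {n : ℕ} (χ : E n → ℝ) (hχ : ContDiff ℝ 2 χ) (hcs : HasCompactSupport χ) :
    ∃ M : ℝ, 0 ≤ M ∧ ∀ y k l, |Hess χ y k l| ≤ M := by
  have h1 : ∀ k l : Fin n, ∃ M : ℝ, 0 ≤ M ∧ ∀ y, |Hess χ y k l| ≤ M := by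
    intro k l
    refine gen_bdr _ (Hess_cont hχ k l) ?_
    refine HasCompactSupport.intro hcs.isCompact fun y hy => ?_
    rw [Hess_zero hy]
    rfl
  choose M hM0 hM using h1
  refine ⟨∑ k, ∑ l, M k l, Finset.sum_nonneg fun k _ => Finset.sum_nonneg fun l _ => hM0 k l, ?_⟩
  intro y k l
  calc |Hess χ y k l| ≤ M k l := hM k l y
    _ ≤ ∑ l, M k l := Finset.single_le_sum (fun l _ => hM0 k l) (Finset.mem_univ l)
    _ ≤ ∑ k, ∑ l, M k l := Finset.single_le_sum
        (f := fun k => ∑ l, M k l) (fun k _ => Finset.sum_nonneg fun l _ => hM0 k l)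
          (Finset.mem_univ k)

theorem deriv_h (H : ℝ → ℝ) (hH : ContDiff ℝ 2 H) (δ θ : ℝ) (hδ : 0 < δ) :
    deriv (fun s => δ ^ 2 * H (s / δ + θ)) = fun s => δ * deriv H (s / δ + θ) := by
  ext s
  have e1 : HasDerivAt (fun s => s / δ + θ) (1 / δ) s := ((hasDerivAt_id s).div_const δ).add_const θ
  have e2 : HasDerivAt H (deriv H (s / δ + θ)) (s / δ + θ) :=
    (hH.differentiable (by norm_num) _).hasDerivAt
  have e3 := ((e2.comp s e1).const_mul (δ ^ 2)).deriv
  have e4 : (fun s => δ ^ 2 * H (s / δ + θ)) = fun y => δ ^ 2 * (H ∘ fun s => s / δ + θ) y := rfl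
  rw [e4, e3]
  field_simp

theorem deriv_h2 (H : ℝ → ℝ) (hH : ContDiff ℝ 2 H) (δ θ : ℝ) (hδ : 0 < δ) :
    deriv (deriv (fun s => δ ^ 2 * H (s / δ + θ))) = fun s => deriv (deriv H) (s / δ + θ) := by
  rw [deriv_h H hH δ θ hδ]
  ext s
  have h3 : ContDiff ℝ 1 (deriv H) := by
    exact cd1 H hH
  have e1 : HasDerivAt (fun s => s / δ + θ) (1 / δ) s := ((hasDerivAt_id s).div_const δ).add_const θ
  have e2 : HasDerivAt (deriv H) (deriv (deriv H) (s / δ + θ)) (s / δ + θ) :=
    (h3.differentiable (by norm_num) _).hasDerivAt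
  have e3 := ((e2.comp s e1).const_mul δ).deriv
  have e4 : (fun s => δ * deriv H (s / δ + θ)) = fun y => δ * (deriv H ∘ fun s => s / δ + θ) y := rfl
  rw [e4, e3]
  field_simp

theorem PROD : S_PROD := by
  intro n i χ H hχ hcs hH ⟨B, hB⟩
  -- bounds
  have hB0 : 0 ≤ B := (abs_nonneg _).trans (hB 0).1
  obtain ⟨M1, hM10, hM1⟩ := gen_bdr χ hχ.continuous hcs
  obtain ⟨M2, hM20, hM2⟩ := gen_bd2 χ hχ hcs
  obtain ⟨M3, hM30, hM3⟩ := Hess_bd χ hχ hcs
  have hsn : ∀ k : Fin n, ‖(EuclideanSpace.single k (1 : ℝ) : E n)‖ = 1 := by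
    intro k; simp
  have hp1 : ∀ k : Fin n, |pr i (EuclideanSpace.single k (1 : ℝ) : E n)| ≤ 1 := by
    intro k
    rw [pr_apply]
    simp only [PiLp.single_apply]
    split_ifs <;> simp
  refine ⟨(M1 + 2 * M2 + M3) * B, fun δ hδ hδ1 θ => ?_⟩
  set h : ℝ → ℝ := fun s => δ ^ 2 * H (s / δ + θ) with hh
  have hhC : ContDiff ℝ 2 h := by
    refine contDiff_const.mul (hH.comp ?_)
    exact (contDiff_id.div_const δ).add contDiff_const
  have hd1 : ∀ s, deriv h s = δ * deriv H (s / δ + θ) := fun s => by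
    rw [hh, deriv_h H hH δ θ hδ]
  have hd2 : ∀ s, deriv (deriv h) s = deriv (deriv H) (s / δ + θ) := fun s => by
    rw [hh, deriv_h2 H hH δ θ hδ]
  have hform : ∀ (y : E n) (k l : Fin n), Hess (fun y : E n => χ y * (δ ^ 2 * H (y i / δ + θ))) y k l
      = h (y i) * Hess χ y k l + (deriv h (y i) * pr i (EuclideanSpace.single k (1 : ℝ) : E n))
          * fderiv ℝ χ y (EuclideanSpace.single l 1)
        + (fderiv ℝ χ y (EuclideanSpace.single k 1) * deriv h (y i)
          + χ y * (deriv (deriv h) (y i) * pr i (EuclideanSpace.single k (1 : ℝ) : E n)))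
            * pr i (EuclideanSpace.single l (1 : ℝ) : E n) := by
    intro y k l
    exact gen_prod (pr i) χ h hχ hhC y _ _
  have hdiag : ∀ (c : ℝ) (k l : Fin n), Matrix.diagonal (Pi.single i c : Fin n → ℝ) k l
      = c * pr i (EuclideanSpace.single k (1 : ℝ) : E n)
        * pr i (EuclideanSpace.single l (1 : ℝ) : E n) := by
    intro c k l
    rw [pr_apply, pr_apply, Matrix.diagonal_apply]
    simp only [PiLp.single_apply, Pi.single_apply]
    by_cases h1 : k = l
    · subst h1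
      by_cases h2 : k = i
      · subst h2; simp
      · simp [h2, Ne.symm h2]
    · rw [if_neg h1]
      by_cases h2 : i = k
      · subst h2
        simp [h1]
      · simp [h2]
  have hhb : ∀ s, |h s| ≤ B * δ := by
    intro s
    rw [hh]
    simp only [abs_mul, abs_pow, abs_of_pos hδ]
    have := (hB (s / δ + θ)).1
    calc δ ^ 2 * |H (s / δ + θ)| ≤ δ ^ 2 * B := by gcongr
      _ ≤ B * δ := by nlinarith [mul_nonneg hB0 hδ.le]
  have hdb : ∀ s, |deriv h s| ≤ B * δ := by
    intro s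
    rw [hd1, abs_mul, abs_of_pos hδ]
    have := (hB (s / δ + θ)).2
    calc δ * |deriv H (s / δ + θ)| ≤ δ * B := by gcongr
      _ = B * δ := by ring
  have hBd : 0 ≤ B * δ := mul_nonneg hB0 hδ.le
  refine ⟨?_, ?_, ?_, ?_, ?_⟩
  · exact hχ.mul (hhC.comp (pr i).contDiff)
  · exact tsupport_mul_subset_left
  · intro y
    rw [abs_mul]
    calc |χ y| * |δ ^ 2 * H (y i / δ + θ)| ≤ M1 * (B * δ) := by
          gcongr
          · exact hM1 y
          · exact hhb (y i)
      _ ≤ (M1 + 2 * M2 + M3) * B * δ := by nlinarith [mul_nonneg hM20 hBd, mul_nonneg hM30 hBd]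
  · intro y k l
    rw [Matrix.sub_apply, hform, hdiag, hd2]
    set a := pr i (EuclideanSpace.single k (1 : ℝ) : E n)
    set b := pr i (EuclideanSpace.single l (1 : ℝ) : E n)
    have e0 : h (y i) * Hess χ y k l + (deriv h (y i) * a)
          * fderiv ℝ χ y (EuclideanSpace.single l 1)
        + (fderiv ℝ χ y (EuclideanSpace.single k 1) * deriv h (y i)
          + χ y * (deriv (deriv H) (y i / δ + θ) * a)) * b
          - χ y * deriv (deriv H) (y i / δ + θ) * a * b
        = h (y i) * Hess χ y k l + (deriv h (y i) * a)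
          * fderiv ℝ χ y (EuclideanSpace.single l 1)
        + fderiv ℝ χ y (EuclideanSpace.single k 1) * deriv h (y i) * b := by ring
    rw [e0]
    have f1 : |h (y i) * Hess χ y k l| ≤ (B * δ) * M3 := by
      rw [abs_mul]
      gcongr
      · exact hhb _
      · exact hM3 y k l
    have f2 : ∀ k : Fin n, |fderiv ℝ χ y (EuclideanSpace.single k 1)| ≤ M2 := by
      intro k
      have := (fderiv ℝ χ y).le_opNorm (EuclideanSpace.single k (1 : ℝ))
      rw [hsn, mul_one, Real.norm_eq_abs] at this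
      exact this.trans (hM2 y)
    have f3 : |(deriv h (y i) * a) * fderiv ℝ χ y (EuclideanSpace.single l 1)| ≤ (B * δ * 1) * M2 := by
      rw [abs_mul, abs_mul]
      gcongr
      · exact hdb _
      · exact hp1 k
      · exact f2 l
    have f4 : |fderiv ℝ χ y (EuclideanSpace.single k 1) * deriv h (y i) * b| ≤ M2 * (B * δ) * 1 := by
      rw [abs_mul, abs_mul]
      gcongr
      · exact f2 k
      · exact hdb _
      · exact hp1 l
    have f5 := abs_add_le (h (y i) * Hess χ y k l + (deriv h (y i) * a)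
          * fderiv ℝ χ y (EuclideanSpace.single l 1))
          (fderiv ℝ χ y (EuclideanSpace.single k 1) * deriv h (y i) * b)
    have f6 := abs_add_le (h (y i) * Hess χ y k l) ((deriv h (y i) * a)
          * fderiv ℝ χ y (EuclideanSpace.single l 1))
    nlinarith [mul_nonneg hM10 hBd]
  · intro V hV hV1 y hy
    have g1 : χ =ᶠ[𝓝 y] fun _ => 1 := by
      filter_upwards [hV.mem_nhds hy] with z hz using hV1 z hz
    have g2 : fderiv ℝ χ =ᶠ[𝓝 y] fun _ => 0 := by
      refine (g1.fderiv (𝕜 := ℝ)).trans ?_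
      filter_upwards with z
      simp
    have g3 : fderiv ℝ (fderiv ℝ χ) y = 0 := by
      rw [g2.fderiv_eq]
      simp
    have g4 : fderiv ℝ χ y = 0 := g2.eq_of_nhds
    ext k l
    rw [hform, hdiag, hd2, g4, hV1 y hy]
    have g5 : Hess χ y k l = 0 := by
      unfold Hess
      rw [g3]
      simp
    rw [g5]
    simp

end Pool.Agent.Q203.WE
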