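import Pool.Agent.Q203.WE.HB

namespace Pool.Agent.Q203.WE

open MeasureTheory Filter Topology Set Metric
open Pool.Agent.Q61.WE

theorem diag_add_single {n : ℕ} (x : Fin n → ℝ) (i : Fin n) (c : ℝ) :
    Matrix.diagonal x + Matrix.diagonal (Pi.single i c : Fin n → ℝ)
      = Matrix.diagonal (Function.update x i (x i + c)) := by
  rw [Matrix.diagonal_add]
  congr 1
  ext l
  by_cases h : l = i
  · subst h; simp
  · simp [h]

theorem diag_mono {n : ℕ} (x : Fin n → ℝ) (i : Fin n) {c d : ℝ} (h : c ≤ d) :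
    (Matrix.diagonal (Function.update x i d) - Matrix.diagonal (Function.update x i c)).PosSemidef := by
  rw [Matrix.diagonal_sub]
  refine Matrix.PosSemidef.diagonal ?_
  intro l
  by_cases hl : l = i
  · subst hl; simp [h]
  · simp [hl]

theorem diag_herm {n : ℕ} (x : Fin n → ℝ) : (Matrix.diagonal x).IsHermitian :=
  Matrix.isHermitian_diagonal x

theorem Tset_meas {n : ℕ} {φ : E n → ℝ} (h : ContDiff ℝ 2 φ) (x : Fin n → ℝ) (T : ℝ) :
    MeasurableSet {y : E n | ∃ k, T ≤ |x k + Hess φ y k k|} := by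
  have : {y : E n | ∃ k, T ≤ |x k + Hess φ y k k|}
      = ⋃ k, {y : E n | T ≤ |x k + Hess φ y k k|} := by
    ext y; simp
  rw [this]
  refine MeasurableSet.iUnion fun k => ?_
  exact (isClosed_le continuous_const
    ((continuous_const.add (Hess_cont h k k)).abs)).measurableSet

theorem SPLIT (hP : S_PUC) (hB : S_HB) (hO : S_OSC) (hA : S_AVG) (hC : S_CUT) (hPr : S_PROD) :
    S_SPLIT := by
  intro n lam Lam T x i a b μ₁ μ₂ hlam hLam ha hb hμ1 hμ2 hKa hKb hR1 hR2 U hU hUb η hη
  obtain ⟨hPm, -, hPc, -⟩ := hP n lam Lam hlam hLam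
  obtain ⟨-, -, hHs, -, -, -⟩ := hB n
  have hab : 0 < b - a := by linarith
  set s₁ := x i - a with hs1
  set s₂ := b - x i with hs2
  have hs1p : 0 < s₁ := by rw [hs1]; linarith
  have hs2p : 0 < s₂ := by rw [hs2]; linarith
  have hsum : s₁ + s₂ = b - a := by rw [hs1, hs2]; ring
  set w₁ := s₂ / (b - a) with hw1
  set w₂ := s₁ / (b - a) with hw2
  have hw1p : 0 < w₁ := by positivity
  have hw2p : 0 < w₂ := by positivity
  set W := w₁ * μ₁ + w₂ * μ₂ with hW
  have hWp : 0 ≤ W := by positivity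
  have hUv : 0 ≤ volume.real U := measureReal_nonneg
  -- small parameters
  set D := 1 + W + (μ₁ + μ₂) * volume.real U with hD
  have hDp : 1 ≤ D := by
    have : 0 ≤ (μ₁ + μ₂) * volume.real U := by positivity
    rw [hD]; linarith
  set η' := η / (4 * D) with hη'
  have hη'p : 0 < η' := by positivity
  have hη'D : η' * D = η / 4 := by rw [hη']; field_simp
  have hη'le : η' ≤ η / 4 := by nlinarith
  obtain ⟨H, J₁, J₂, hHC, hHb, hHr, hJ1o, hJ2o, hJd, hJ1, hJ2, hJ1m, hJ2m⟩ := hO s₁ s₂ η' hs1p hs2p hη'p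
  obtain ⟨χ, hχC, hχc, hχs, hχ01, V, hVo, hVU, hV1, hVm⟩ := hC n U hU hUb η' hη'p
  obtain ⟨B, hBp⟩ := hPr n i χ H hχC hχc hHC hHb
  -- margin
  set m := min (-pucciMin lam Lam (Matrix.diagonal (Function.update x i b)))
    (pucciMax lam Lam (Matrix.diagonal (Function.update x i a))) with hm
  have hmp : 0 < m := lt_min (by linarith [hKb.2.1]) hKa.2.2
  set B' := |B| + 1 with hB'
  have hB'p : 0 < B' := by positivity
  have hBB' : B ≤ B' := (le_abs_self B).trans (by rw [hB']; linarith)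
  set δ := min 1 (min (η' / B') (m / (2 * ((n : ℝ) ^ 2 * Lam + 1) * B'))) with hδ
  have hLamp : 0 < Lam := lt_of_lt_of_le hlam hLam
  have hδp : 0 < δ := by
    refine lt_min one_pos (lt_min (by positivity) (by positivity))
  have hδ1 : δ ≤ 1 := min_le_left _ _
  have hδ2 : B' * δ ≤ η' := by
    have : δ ≤ η' / B' := (min_le_right _ _).trans (min_le_left _ _)
    calc B' * δ ≤ B' * (η' / B') := by gcongr
      _ = η' := by field_simp
  have hδ3 : (n : ℝ) ^ 2 * Lam * (B' * δ) < m := by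
    have : δ ≤ m / (2 * ((n : ℝ) ^ 2 * Lam + 1) * B') := (min_le_right _ _).trans (min_le_right _ _)
    have h1 : (n : ℝ) ^ 2 * Lam * (B' * δ) ≤ ((n : ℝ) ^ 2 * Lam + 1) * (B' * δ) := by
      have : 0 ≤ B' * δ := by positivity
      nlinarith
    have h2 : ((n : ℝ) ^ 2 * Lam + 1) * (B' * δ)
        ≤ ((n : ℝ) ^ 2 * Lam + 1) * (B' * (m / (2 * ((n : ℝ) ^ 2 * Lam + 1) * B'))) := by gcongr
    have h3 : ((n : ℝ) ^ 2 * Lam + 1) * (B' * (m / (2 * ((n : ℝ) ^ 2 * Lam + 1) * B'))) = m / 2 := by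
      field_simp
    linarith
  have hVb : Bornology.IsBounded V := hUb.subset hVU
  obtain ⟨θ, hθ⟩ := hA n V hVo hVb (fun y => y i / δ)
    (((pr i : E n →L[ℝ] ℝ).continuous).div_const δ) J₁ J₂ hJ1o hJ2o (s₂ / (s₁ + s₂) - η')
    (s₁ / (s₁ + s₂) - η') μ₁ μ₂ hμ1 hμ2 hJ1m hJ2m
  obtain ⟨hφC, hφs, hφb, hφH, hφV⟩ := hBp δ hδp hδ1 θ
  set φ₀ : E n → ℝ := fun y => χ y * (δ ^ 2 * H (y i / δ + θ)) with hφ0
  have hcφ : Continuous fun y : E n => y i / δ + θ :=
    (((pr i : E n →L[ℝ] ℝ).continuous).div_const δ).add continuous_const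
  set U₁ : Set (E n) := {y ∈ V | y i / δ + θ ∈ J₁} with hU1
  set U₂ : Set (E n) := {y ∈ V | y i / δ + θ ∈ J₂} with hU2
  have hU1o : IsOpen U₁ := hVo.inter (hJ1o.preimage hcφ)
  have hU2o : IsOpen U₂ := hVo.inter (hJ2o.preimage hcφ)
  have hU1V : U₁ ⊆ V := fun y hy => hy.1
  have hU2V : U₂ ⊆ V := fun y hy => hy.1
  have hU12 : Disjoint U₁ U₂ := by
    rw [Set.disjoint_left]
    intro y h1 h2
    exact Set.disjoint_left.1 hJd h1.2 h2.2
  obtain ⟨φ₁, h1C, h1c, h1s, h1b, h1K, h1m⟩ := hR1 U₁ hU1o (hVb.subset hU1V) η' hη'p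
  obtain ⟨φ₂, h2C, h2c, h2s, h2b, h2K, h2m⟩ := hR2 U₂ hU2o (hVb.subset hU2V) η' hη'p
  -- KK for the first perturbation
  have hKK0 : ∀ y, KK lam Lam (Matrix.diagonal x + Hess φ₀ y) := by
    intro y
    set c := χ y * deriv (deriv H) (y i / δ + θ) with hc
    have hcr : -s₁ ≤ c ∧ c ≤ s₂ := by
      obtain ⟨q1, q2⟩ := hHr (y i / δ + θ)
      obtain ⟨q3, q4⟩ := hχ01 y
      constructor
      · rw [hc]; nlinarith
      · rw [hc]; nlinarith
    have hH0 : (Matrix.diagonal x + Hess φ₀ y).IsHermitian :=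
      (diag_herm x).add (hHs φ₀ y hφC.contDiffAt)
    have hclose : ∀ k l, |(Matrix.diagonal x + Hess φ₀ y) k l
        - (Matrix.diagonal (Function.update x i (x i + c))) k l| ≤ B' * δ := by
      intro k l
      rw [← diag_add_single]
      have := hφH y k l
      rw [Matrix.sub_apply] at this
      rw [Matrix.add_apply, Matrix.add_apply, add_sub_add_left_eq_sub]
      refine this.trans ?_
      gcongr
    obtain ⟨q1, q2⟩ := hPc (Matrix.diagonal (Function.update x i (x i + c)))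
      (Matrix.diagonal x + Hess φ₀ y) (diag_herm _) hH0 (B' * δ) (by positivity) hclose
    have q3 := (hPm (Matrix.diagonal (Function.update x i (x i + c)))
      (Matrix.diagonal (Function.update x i b)) (diag_herm _) (diag_herm _)
      (diag_mono x i (by rw [hs2] at hcr; linarith [hcr.2]))).1
    have q4 := (hPm (Matrix.diagonal (Function.update x i a))
      (Matrix.diagonal (Function.update x i (x i + c))) (diag_herm _) (diag_herm _)
      (diag_mono x i (by rw [hs1] at hcr; linarith [hcr.1]))).2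
    have q5 : m ≤ -pucciMin lam Lam (Matrix.diagonal (Function.update x i b)) := min_le_left _ _
    have q6 : m ≤ pucciMax lam Lam (Matrix.diagonal (Function.update x i a)) := min_le_right _ _
    rw [abs_le] at q1 q2
    exact ⟨hH0, by linarith [q1.2], by linarith [q2.1]⟩
  -- Hessians of the sum
  set φ : E n → ℝ := fun y => φ₀ y + (φ₁ y + φ₂ y) with hφ
  have h12C : ContDiff ℝ 2 (fun y => φ₁ y + φ₂ y) := h1C.add h2C
  have hHφ : ∀ y, Hess φ y = Hess φ₀ y + (Hess φ₁ y + Hess φ₂ y) := by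
    intro y
    rw [hφ, Hess_add hφC h12C, Hess_add h1C h2C]
  have hout1 : ∀ y, y ∉ U₁ → Hess φ₁ y = 0 ∧ φ₁ y = 0 := fun y hy =>
    ⟨Hess_zero fun h => hy (h1s h), image_eq_zero_of_notMem_tsupport fun h => hy (h1s h)⟩
  have hout2 : ∀ y, y ∉ U₂ → Hess φ₂ y = 0 ∧ φ₂ y = 0 := fun y hy =>
    ⟨Hess_zero fun h => hy (h2s h), image_eq_zero_of_notMem_tsupport fun h => hy (h2s h)⟩
  have hin1 : ∀ y ∈ U₁, Matrix.diagonal x + Hess φ y
      = Matrix.diagonal (Function.update x i a) + Hess φ₁ y := by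
    intro y hy
    have e1 := hφV V hVo hV1 y hy.1
    rw [hHφ, e1, hJ1 _ hy.2, (hout2 y (Set.disjoint_left.1 hU12 hy)).1, add_zero, ← add_assoc,
      diag_add_single]
    congr 3
    rw [hs1]; ring
  have hin2 : ∀ y ∈ U₂, Matrix.diagonal x + Hess φ y
      = Matrix.diagonal (Function.update x i b) + Hess φ₂ y := by
    intro y hy
    have e1 := hφV V hVo hV1 y hy.1
    rw [hHφ, e1, hJ2 _ hy.2, (hout1 y (Set.disjoint_right.1 hU12 hy)).1, zero_add, ← add_assoc,
      diag_add_single]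
    congr 3
    rw [hs2]; ring
  have hts : tsupport φ ⊆ tsupport χ ∪ (tsupport φ₁ ∪ tsupport φ₂) := by
    have e1 : Function.support φ ⊆ tsupport χ ∪ (tsupport φ₁ ∪ tsupport φ₂) := by
      intro y hy
      by_contra hcon
      simp only [mem_union, not_or] at hcon
      obtain ⟨c1, c2, c3⟩ := hcon
      apply hy
      have d1 : φ₀ y = 0 := by
        rw [hφ0]
        simp only
        rw [image_eq_zero_of_notMem_tsupport c1, zero_mul]
      rw [hφ]
      simp only
      rw [d1, image_eq_zero_of_notMem_tsupport c2, image_eq_zero_of_notMem_tsupport c3]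
      simp
    exact closure_minimal e1 ((isClosed_tsupport _).union
      ((isClosed_tsupport _).union (isClosed_tsupport _)))
  refine ⟨φ, hφC.add h12C, ?_, ?_, ?_, ?_, ?_⟩
  · refine HasCompactSupport.of_support_subset_isCompact
      (hχc.isCompact.union (h1c.isCompact.union h2c.isCompact)) ((subset_tsupport _).trans hts)
  · refine hts.trans ?_
    exact union_subset hχs (union_subset (h1s.trans (hU1V.trans hVU)) (h2s.trans (hU2V.trans hVU)))
  · intro y
    have c1 : |φ₀ y| ≤ η' := (hφb y).trans (le_trans (by gcongr) hδ2)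
    have c2 := abs_add_le (φ₀ y) (φ₁ y + φ₂ y)
    have c3 := abs_add_le (φ₁ y) (φ₂ y)
    have c4 := h1b y
    have c5 := h2b y
    rw [hφ]
    simp only
    linarith
  · intro y
    by_cases hy1 : y ∈ U₁
    · rw [hin1 y hy1]; exact h1K y
    · by_cases hy2 : y ∈ U₂
      · rw [hin2 y hy2]; exact h2K y
      · rw [hHφ, (hout1 y hy1).1, (hout2 y hy2).1, add_zero, add_zero]
        exact hKK0 y
  · -- measures
    set S : Set (E n) := {y ∈ U | ∃ k, T ≤ |x k + Hess φ y k k|} with hS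
    set S₁ : Set (E n) := {y ∈ U₁ | ∃ k, T ≤ |Function.update x i a k + Hess φ₁ y k k|} with hS1
    set S₂ : Set (E n) := {y ∈ U₂ | ∃ k, T ≤ |Function.update x i b k + Hess φ₂ y k k|} with hS2
    have hS1S : S₁ ⊆ S := by
      rintro y ⟨hy, k, hk⟩
      refine ⟨hVU (hU1V hy), k, ?_⟩
      have e1 := congrFun (congrFun (hin1 y hy) k) k
      simp only [Matrix.add_apply, Matrix.diagonal_apply_eq] at e1
      rw [e1]
      exact hk
    have hS2S : S₂ ⊆ S := by
      rintro y ⟨hy, k, hk⟩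
      refine ⟨hVU (hU2V hy), k, ?_⟩
      have e1 := congrFun (congrFun (hin2 y hy) k) k
      simp only [Matrix.add_apply, Matrix.diagonal_apply_eq] at e1
      rw [e1]
      exact hk
    have hd : Disjoint S₁ S₂ := hU12.mono (fun y hy => hy.1) (fun y hy => hy.1)
    have hfin : volume S ≠ ⊤ :=
      ne_top_of_le_ne_top hUb.measure_lt_top.ne (measure_mono fun y hy => hy.1)
    have hfin1 : volume S₁ ≠ ⊤ := ne_top_of_le_ne_top hfin (measure_mono hS1S)
    have hfin2 : volume S₂ ≠ ⊤ := ne_top_of_le_ne_top hfin (measure_mono hS2S)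
    have hS2m : MeasurableSet S₂ := hU2o.measurableSet.inter (Tset_meas h2C _ T)
    have e1 : volume.real (S₁ ∪ S₂) = volume.real S₁ + volume.real S₂ :=
      measureReal_union hd hS2m hfin1 hfin2
    have e2 : volume.real (S₁ ∪ S₂) ≤ volume.real S := measureReal_mono (union_subset hS1S hS2S) hfin
    have hsum1 : s₂ / (s₁ + s₂) = w₁ := by rw [hsum]
    have hsum2 : s₁ / (s₁ + s₂) = w₂ := by rw [hsum]
    rw [hsum1, hsum2] at hθ
    have e3 : volume.real V ≤ volume.real U := measureReal_mono hVU hUb.measure_lt_top.ne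
    have e4 : W * volume.real V - η' * ((μ₁ + μ₂) * volume.real U)
        ≤ (μ₁ * (w₁ - η') + μ₂ * (w₂ - η')) * volume.real V := by
      have f1 : η' * ((μ₁ + μ₂) * volume.real V) ≤ η' * ((μ₁ + μ₂) * volume.real U) := by gcongr
      have f2 : (μ₁ * (w₁ - η') + μ₂ * (w₂ - η')) * volume.real V
          = W * volume.real V - η' * ((μ₁ + μ₂) * volume.real V) := by rw [hW]; ring
      rw [f2]
      linarith
    have e5 : W * (volume.real U - η') ≤ W * volume.real V := by gcongr
    have e6 : η' * D = η' + W * η' + η' * ((μ₁ + μ₂) * volume.real U) := by rw [hD]; ring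
    change W * volume.real U - η ≤ volume.real S
    change μ₁ * volume.real U₁ - η' ≤ volume.real S₁ at h1m
    change μ₂ * volume.real U₂ - η' ≤ volume.real S₂ at h2m
    change _ ≤ μ₁ * volume.real U₁ + μ₂ * volume.real U₂ at hθ
    linarith

end Pool.Agent.Q203.WE
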